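import Pool.Agent.Helper35.PQF.St

set_option autoImplicit false

/-! Project PM (helper35), MP_d112a4_gt: module CN2 (helper78): orbit counting. -/

namespace Pool.Agent.Helper78.PM

open Pool.Agent.Helper35.PM

/-- The level. -/
noncomputable def lv (X : ℝ) (A : SL) : ℕ := Nat.log 2 ⌊X / ht (A : Mat)⌋₊

/-- The cell. -/
noncomputable def cell (X : ℝ) (A : SL) : ℕ × ℤ × ℤ :=
  (lv X A, ⌊(hz (A : Mat)).re / (X / 2 ^ (lv X A + 1))⌋, ⌊(hz (A : Mat)).im / (X / 2 ^ (lv X A + 1))⌋)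

theorem basic (cn1 : St_CN1) (X : ℝ) (hX : 1 ≤ X) (A : SL) (hA : hs (A : Mat) ≤ X) :
    0 < ht (A : Mat) ∧ (2 : ℝ) ^ (lv X A) ≤ X ^ 2 ∧ X / 2 ^ (lv X A + 1) < ht (A : Mat) ∧
      ht (A : Mat) ≤ 2 * (X / 2 ^ (lv X A + 1)) ∧ ‖hz (A : Mat)‖ ^ 2 ≤ X * ht (A : Mat) := by
  obtain ⟨ht0, h1, _⟩ := cn1 A
  set t := ht (A : Mat) with htd
  have hX0 : 0 < X := by linarith
  have h2 : ‖hz (A : Mat)‖ ^ 2 + t ^ 2 + 1 ≤ X * t := by
    rw [← h1]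
    exact mul_le_mul_of_nonneg_right hA ht0.le
  have hz0 : 0 ≤ ‖hz (A : Mat)‖ ^ 2 := by positivity
  have htX : t ≤ X := by
    have : t * t ≤ X * t := by nlinarith
    exact le_of_mul_le_mul_right this ht0
  have h1X : 1 ≤ X * t := by nlinarith [sq_nonneg t]
  have hq1 : 1 ≤ X / t := by
    rw [le_div_iff₀ ht0]
    linarith
  have hq2 : X / t ≤ X ^ 2 := by
    rw [div_le_iff₀ ht0]
    nlinarith
  have hfl : ⌊X / t⌋₊ ≠ 0 := by
    have : 1 ≤ ⌊X / t⌋₊ := by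
      rw [Nat.one_le_floor_iff]
      exact hq1
    omega
  have hp1 : (2 : ℝ) ^ (lv X A) ≤ X / t := by
    have h := Nat.pow_log_le_self 2 hfl
    have h' : ((2 ^ Nat.log 2 ⌊X / t⌋₊ : ℕ) : ℝ) ≤ ((⌊X / t⌋₊ : ℕ) : ℝ) := by exact_mod_cast h
    have h'' := h'.trans (Nat.floor_le (by linarith))
    push_cast at h''
    exact h''
  have hp2 : X / t < (2 : ℝ) ^ (lv X A + 1) := by
    have h := Nat.lt_pow_succ_log_self (b := 2) (by norm_num) ⌊X / t⌋₊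
    have h3 := Nat.lt_floor_add_one (X / t)
    have h4 : ((⌊X / t⌋₊ : ℕ) : ℝ) + 1 ≤ ((2 ^ (Nat.log 2 ⌊X / t⌋₊ + 1) : ℕ) : ℝ) := by exact_mod_cast h
    push_cast at h4
    exact h3.trans_le h4
  have hpos : (0 : ℝ) < 2 ^ (lv X A) := by positivity
  have hpos1 : (0 : ℝ) < 2 ^ (lv X A + 1) := by positivity
  refine ⟨ht0, hp1.trans hq2, ?_, ?_, by nlinarith [sq_nonneg t]⟩
  · rw [div_lt_iff₀ ht0] at hp2
    rw [div_lt_iff₀ hpos1]
    linarith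
  · have e : 2 * (X / 2 ^ (lv X A + 1)) = X / 2 ^ (lv X A) := by
      rw [pow_succ]
      field_simp
    rw [e, le_div_iff₀ hpos]
    rw [le_div_iff₀ ht0] at hp1
    linarith

theorem floor_close (x y s : ℝ) (hs : 0 < s) (h : ⌊x / s⌋ = ⌊y / s⌋) : (x - y) ^ 2 ≤ s ^ 2 := by
  have h1 := Int.abs_sub_lt_one_of_floor_eq_floor h
  rw [abs_lt] at h1
  have e : x - y = (x / s - y / s) * s := by
    field_simp
  rw [e, mul_pow]
  have h2 : (x / s - y / s) ^ 2 ≤ 1 := by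
    nlinarith [h1.1, h1.2]
  nlinarith [sq_nonneg s]

theorem fibre (cn1 : St_CN1) (X : ℝ) (hX : 1 ≤ X) (A B : SL) (hA : hs (A : Mat) ≤ X) (hB : hs (B : Mat) ≤ X)
    (h : cell X A = cell X B) : hs ((A⁻¹ * B : SL) : Mat) ≤ 10 := by
  obtain ⟨a1, _, a3, a4, _⟩ := basic cn1 X hX A hA
  obtain ⟨b1, _, b3, b4, _⟩ := basic cn1 X hX B hB
  have hl : lv X A = lv X B := congrArg Prod.fst h
  have h2 := congrArg (fun c => c.2.1) h
  have h3 := congrArg (fun c => c.2.2) h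
  simp only [cell] at h2 h3
  rw [← hl] at h2 h3 b3 b4
  set s := X / 2 ^ (lv X A + 1) with hs'
  have hs0 : 0 < s := by
    have : (0 : ℝ) < 2 ^ (lv X A + 1) := by positivity
    positivity
  have h4 := (cn1 A).2.2 B
  have h5 := floor_close _ _ s hs0 h2
  have h6 := floor_close _ _ s hs0 h3
  have h7 : ‖hz (A : Mat) - hz (B : Mat)‖ ^ 2 ≤ 2 * s ^ 2 := by
    rw [← Complex.normSq_eq_norm_sq, Complex.normSq_apply, Complex.sub_re, Complex.sub_im]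
    nlinarith
  have h8 : s * s ≤ ht (A : Mat) * ht (B : Mat) := mul_le_mul a3.le b3.le hs0.le a1.le
  have h9 : ht (A : Mat) ^ 2 ≤ 4 * s ^ 2 := by nlinarith
  have h10 : ht (B : Mat) ^ 2 ≤ 4 * s ^ 2 := by nlinarith
  have h11 : hs ((A⁻¹ * B : SL) : Mat) * (ht (A : Mat) * ht (B : Mat)) ≤ 10 * (ht (A : Mat) * ht (B : Mat)) := by
    rw [h4]
    nlinarith
  exact le_of_mul_le_mul_right h11 (mul_pos a1 b1)

/-- The cells of the level `k`. -/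
noncomputable def Tk (k : ℕ) : Finset (ℤ × ℤ) :=
  Finset.Icc (-(Nat.sqrt (2 ^ (k + 4)) : ℤ)) (Nat.sqrt (2 ^ (k + 4)) : ℤ) ×ˢ
    Finset.Icc (-(Nat.sqrt (2 ^ (k + 4)) : ℤ)) (Nat.sqrt (2 ^ (k + 4)) : ℤ)

theorem Tk_card (k : ℕ) : (Tk k).card ≤ 144 * 2 ^ k := by
  unfold Tk
  rw [Finset.card_product, Int.card_Icc]
  set M := Nat.sqrt (2 ^ (k + 4)) with hM
  have h1 : M * M ≤ 2 ^ (k + 4) := Nat.sqrt_le _
  have h2 : 1 ≤ M := by
    rw [hM, Nat.le_sqrt]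
    exact Nat.one_le_two_pow
  have e : ((M : ℤ) + 1 - (-(M : ℤ))).toNat = 2 * M + 1 := by omega
  rw [e]
  have h3 : (2 : ℕ) ^ (k + 4) = 16 * 2 ^ k := by
    rw [pow_add]
    ring
  rw [h3] at h1
  nlinarith

theorem floor_mem (k : ℕ) (r : ℝ) (h : r ^ 2 ≤ 2 ^ (k + 2)) :
    ⌊r⌋ ∈ Finset.Icc (-(Nat.sqrt (2 ^ (k + 4)) : ℤ)) (Nat.sqrt (2 ^ (k + 4)) : ℤ) := by
  have h1 := Int.floor_le r
  have h2 := Int.lt_floor_add_one r
  have h3 : ((⌊r⌋ : ℤ) : ℝ) ^ 2 ≤ 2 ^ (k + 4) := by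
    have h4 : ((⌊r⌋ : ℤ) : ℝ) ^ 2 ≤ 2 * r ^ 2 + 2 := by nlinarith [sq_nonneg (r + ((⌊r⌋ : ℤ) : ℝ)), sq_nonneg (2 * r - ((⌊r⌋ : ℤ) : ℝ))]
    have h5 : (2 : ℝ) ^ (k + 4) = 4 * 2 ^ (k + 2) := by
      rw [show k + 4 = (k + 2) + 2 by ring, pow_add]
      norm_num
      ring
    have h6 : (1 : ℝ) ≤ 2 ^ (k + 2) := one_le_pow₀ (by norm_num)
    rw [h5]
    linarith
  have h4 : (⌊r⌋.natAbs) ^ 2 ≤ 2 ^ (k + 4) := by
    have : ((⌊r⌋ : ℤ)) ^ 2 ≤ 2 ^ (k + 4) := by exact_mod_cast h3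
    have e : ((⌊r⌋.natAbs : ℕ) : ℤ) ^ 2 = ⌊r⌋ ^ 2 := Int.natAbs_sq _
    have : ((⌊r⌋.natAbs : ℕ) : ℤ) ^ 2 ≤ 2 ^ (k + 4) := by rw [e]; exact this
    exact_mod_cast this
  have h5 : ⌊r⌋.natAbs ≤ Nat.sqrt (2 ^ (k + 4)) := by
    rw [Nat.le_sqrt, ← pow_two]
    exact h4
  rw [Finset.mem_Icc]
  omega

theorem cell_mem (cn1 : St_CN1) (X : ℝ) (hX : 1 ≤ X) (A : SL) (hA : hs (A : Mat) ≤ X) :
    (cell X A).2 ∈ Tk (lv X A) := by
  obtain ⟨a1, _, a3, a4, a5⟩ := basic cn1 X hX A hA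
  have hpos : (0 : ℝ) < 2 ^ (lv X A + 1) := by positivity
  set s := X / 2 ^ (lv X A + 1) with hs'
  have hs0 : 0 < s := by positivity
  have hXs : X = s * 2 ^ (lv X A + 1) := by
    rw [hs']
    field_simp
  have h1 : ‖hz (A : Mat)‖ ^ 2 ≤ s ^ 2 * 2 ^ (lv X A + 2) := by
    calc ‖hz (A : Mat)‖ ^ 2 ≤ X * ht (A : Mat) := a5
      _ ≤ X * (2 * s) := mul_le_mul_of_nonneg_left a4 (by linarith)
      _ = s ^ 2 * 2 ^ (lv X A + 2) := by
          conv_lhs => rw [hXs]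
          ring
  rw [← Complex.normSq_eq_norm_sq, Complex.normSq_apply] at h1
  have h2 : ((hz (A : Mat)).re / s) ^ 2 ≤ 2 ^ (lv X A + 2) := by
    rw [div_pow, div_le_iff₀ (by positivity)]
    nlinarith [mul_self_nonneg (hz (A : Mat)).im]
  have h3 : ((hz (A : Mat)).im / s) ^ 2 ≤ 2 ^ (lv X A + 2) := by
    rw [div_pow, div_le_iff₀ (by positivity)]
    nlinarith [mul_self_nonneg (hz (A : Mat)).re]
  unfold Tk
  rw [Finset.mem_product]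
  exact ⟨floor_mem _ _ h2, floor_mem _ _ h3⟩

theorem geo (K : ℕ) : ∑ k ∈ Finset.range (K + 1), 144 * 2 ^ k ≤ 288 * 2 ^ K := by
  induction K with
  | zero => simp
  | succ K ih =>
    rw [Finset.sum_range_succ, pow_succ]
    omega

theorem cn2 (_hs1 : St_HS1) (cn1 : St_CN1) : St_CN2 := by
  classical
  intro Γ _ ρ hd
  set N₀ : ℕ := (hd 10).toFinset.card with hN
  refine ⟨288 * N₀ + 1, by positivity, fun X hX => ?_⟩
  rw [Set.ncard_eq_toFinset_card _ (hd X)]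
  set S := (hd X).toFinset with hS
  have hmem : ∀ γ, γ ∈ S ↔ hs (ρ γ : Mat) ≤ X := fun γ => by
    rw [hS, Set.Finite.mem_toFinset]
    rfl
  have h10 : ∀ γ, γ ∈ (hd 10).toFinset ↔ hs (ρ γ : Mat) ≤ 10 := fun γ => by
    rw [Set.Finite.mem_toFinset]
    rfl
  set f : Γ → ℕ × ℤ × ℤ := fun γ => cell X (ρ γ) with hf
  have hfib : ∀ a ∈ S.image f, (S.filter fun x => f x = a).card ≤ N₀ := by
    intro a ha
    obtain ⟨γ₀, hγ₀, rfl⟩ := Finset.mem_image.mp ha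
    refine Finset.card_le_card_of_injOn (fun γ => γ₀⁻¹ * γ) ?_ ?_
    · intro γ hγ
      have hγ' := Finset.mem_filter.mp (Finset.mem_coe.mp hγ)
      rw [Finset.mem_coe, h10, map_mul, map_inv]
      exact fibre cn1 X hX (ρ γ₀) (ρ γ) ((hmem _).mp hγ₀) ((hmem _).mp hγ'.1) hγ'.2.symm
    · intro γ _ γ' _ h
      exact mul_left_cancel h
  have hc := Finset.card_le_mul_card_image S N₀ hfib
  set K : ℕ := Nat.log 2 ⌊X ^ 2⌋₊ with hK
  have hX2 : (1 : ℝ) ≤ X ^ 2 := one_le_pow₀ hX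
  have hfl : ⌊X ^ 2⌋₊ ≠ 0 := by
    have : 1 ≤ ⌊X ^ 2⌋₊ := by
      rw [Nat.one_le_floor_iff]
      exact hX2
    omega
  have hKX : (2 : ℝ) ^ K ≤ X ^ 2 := by
    have h := Nat.pow_log_le_self 2 hfl
    have h' : ((2 ^ Nat.log 2 ⌊X ^ 2⌋₊ : ℕ) : ℝ) ≤ ((⌊X ^ 2⌋₊ : ℕ) : ℝ) := by exact_mod_cast h
    have h'' := h'.trans (Nat.floor_le (by linarith))
    push_cast at h''
    exact h''
  have hsub : S.image f ⊆ (Finset.range (K + 1)).biUnion fun k => (Tk k).image fun c => (k, c) := by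
    intro a ha
    obtain ⟨γ, hγ, rfl⟩ := Finset.mem_image.mp ha
    have hγX := (hmem _).mp hγ
    rw [Finset.mem_biUnion]
    refine ⟨lv X (ρ γ), ?_, ?_⟩
    · rw [Finset.mem_range]
      have h2 := (basic cn1 X hX (ρ γ) hγX).2.1
      have h3 : 2 ^ (lv X (ρ γ)) ≤ ⌊X ^ 2⌋₊ := by
        refine Nat.le_floor ?_
        push_cast
        exact h2
      have h4 : lv X (ρ γ) ≤ K := by
        rw [hK]
        exact (Nat.le_log_iff_pow_le (by norm_num) hfl).mpr h3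
      omega
    · rw [Finset.mem_image]
      exact ⟨(cell X (ρ γ)).2, cell_mem cn1 X hX (ρ γ) hγX, rfl⟩
  have hT : (S.image f).card ≤ 288 * 2 ^ K := by
    refine (Finset.card_le_card hsub).trans (Finset.card_biUnion_le.trans ?_)
    refine (Finset.sum_le_sum fun k _ => ?_).trans (geo K)
    exact Finset.card_image_le.trans (Tk_card k)
  have hfin : S.card ≤ N₀ * (288 * 2 ^ K) := hc.trans (Nat.mul_le_mul_left _ hT)
  have hfin' : (S.card : ℝ) ≤ N₀ * (288 * 2 ^ K) := by exact_mod_cast hfin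
  have hN0 : (0 : ℝ) ≤ N₀ := Nat.cast_nonneg _
  calc (S.card : ℝ) ≤ N₀ * (288 * 2 ^ K) := hfin'
    _ ≤ N₀ * (288 * X ^ 2) := by gcongr
    _ ≤ (288 * N₀ + 1) * X ^ 2 := by nlinarith

end Pool.Agent.Helper78.PM
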