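import Pool.Agent.Helper35.PQF.St

set_option autoImplicit false

/-! Project PM (helper35), MP_d112a4_gt: module GE2 (helper78): one real variable, Fatou. -/

open Filter Topology Set MeasureTheory
open scoped ENNReal

namespace Pool.Agent.Helper78.PM

open Pool.Agent.Helper35.PM

theorem cosh_bd (δ : ℝ) : 2 * (Real.cosh δ - 1) ≤ δ ^ 2 * Real.exp (δ ^ 2 / 2) := by
  have h1 := Real.cosh_le_exp_half_sq δ
  have h2 := Real.add_one_le_exp (-(δ ^ 2 / 2))
  have h3 : Real.exp (-(δ ^ 2 / 2)) * Real.exp (δ ^ 2 / 2) = 1 := by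
    rw [← Real.exp_add]
    simp
  have h4 := Real.exp_pos (δ ^ 2 / 2)
  nlinarith

/-- The second difference of a Lipschitz function. -/
theorem second_diff (v : ℝ → ℝ) (hv : ∀ s t, |v s - v t| ≤ |s - t|) (hc : Continuous v) (L δ : ℝ) (hδ : 0 < δ) :
    ∫ t in (0 : ℝ)..L, (2 * v t - v (t + δ) - v (t - δ)) ≤ 2 * δ ^ 2 := by
  set g : ℝ → ℝ := fun t => v (t + δ) - v t with hg
  have hgc : Continuous g := by
    rw [hg]
    fun_prop
  have hgb : ∀ t, ‖g t‖ ≤ δ := by
    intro t
    rw [Real.norm_eq_abs]
    refine (hv _ _).trans (le_of_eq ?_)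
    rw [add_sub_cancel_left, abs_of_pos hδ]
  have hi : ∀ a b : ℝ, IntervalIntegrable g volume a b := fun a b => hgc.intervalIntegrable a b
  have e1 : ∫ t in (0 : ℝ)..L, (2 * v t - v (t + δ) - v (t - δ)) = (∫ t in (0 : ℝ)..L, g (t - δ)) - ∫ t in (0 : ℝ)..L, g t := by
    rw [← intervalIntegral.integral_sub]
    · refine intervalIntegral.integral_congr fun t _ => ?_
      simp only [hg, sub_add_cancel]
      ring
    · exact (hgc.comp (continuous_id.sub continuous_const)).intervalIntegrable _ _
    · exact hi _ _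
  rw [e1, intervalIntegral.integral_comp_sub_right]
  have e2 : (∫ t in (0 - δ)..(L - δ), g t) = (∫ t in (0 - δ)..0, g t) + ∫ t in (0 : ℝ)..(L - δ), g t :=
    (intervalIntegral.integral_add_adjacent_intervals (hi _ _) (hi _ _)).symm
  have e3 : (∫ t in (0 : ℝ)..L, g t) = (∫ t in (0 : ℝ)..(L - δ), g t) + ∫ t in (L - δ)..L, g t :=
    (intervalIntegral.integral_add_adjacent_intervals (hi _ _) (hi _ _)).symm
  rw [e2, e3]
  have b1 : ‖∫ t in (0 - δ)..0, g t‖ ≤ δ * |0 - (0 - δ)| :=
    intervalIntegral.norm_integral_le_of_norm_le_const fun t _ => hgb t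
  have b2 : ‖∫ t in (L - δ)..L, g t‖ ≤ δ * |L - (L - δ)| :=
    intervalIntegral.norm_integral_le_of_norm_le_const fun t _ => hgb t
  rw [Real.norm_eq_abs, abs_le] at b1 b2
  have a1 : |0 - (0 - δ)| = δ := by
    rw [sub_sub_cancel, abs_of_pos hδ]
  have a2 : |L - (L - δ)| = δ := by
    rw [sub_sub_cancel, abs_of_pos hδ]
  rw [a1] at b1
  rw [a2] at b2
  nlinarith [b1.2, b2.1]

theorem ge2 : St_GE2 := by
  intro u j L η hL hu hj hu1 hw1 hineq hη
  have hu0 : ∀ t, 0 < u t := fun t => by linarith [hu t]
  by_cases h0 : ∃ t₀, u t₀ - 1 / 2 = 0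
  · -- the degenerate case
    obtain ⟨t₀, ht₀⟩ := h0
    have hz : ∀ s, u s - 1 / 2 = 0 := by
      intro s
      have h := hw1 s t₀
      rw [ht₀, mul_zero] at h
      exact le_antisymm h (by linarith [hu s])
    have hj1 : ∀ t δ, 0 < δ → j t (t + δ) + j t (t - δ) - 2 = 0 := by
      intro t δ hδ
      have h := hineq t δ hδ
      rw [hz, hz, hz] at h
      have a1 := hj t (t + δ)
      have a2 := hj t (t - δ)
      have c1 : 0 ≤ (j t (t + δ) - 1) * u (t + δ) := mul_nonneg (by linarith) (hu0 _).le
      have c2 : 0 ≤ (j t (t - δ) - 1) * u (t - δ) := mul_nonneg (by linarith) (hu0 _).le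
      have d1 : (j t (t + δ) - 1) * u (t + δ) = 0 := by linarith
      have d2 : (j t (t - δ) - 1) * u (t - δ) = 0 := by linarith
      have f1 : j t (t + δ) - 1 = 0 := (mul_eq_zero.mp d1).resolve_right (hu0 _).ne'
      have f2 : j t (t - δ) - 1 = 0 := (mul_eq_zero.mp d2).resolve_right (hu0 _).ne'
      linarith
    refine ⟨fun _ => 0, measurable_const, fun t _ => ?_, by simp⟩
    have e : (fun δ : ℝ => ENNReal.ofReal ((j t (t + δ) + j t (t - δ) - 2) / δ ^ 2)) =ᶠ[𝓝[>] 0] fun _ => 0 := by
      filter_upwards [self_mem_nhdsWithin] with δ hδ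
      rw [hj1 t δ hδ, zero_div, ENNReal.ofReal_zero]
    rw [liminf_congr e, liminf_const]
  · push Not at h0
    have hw0 : ∀ t, 0 < u t - 1 / 2 := fun t => lt_of_le_of_ne (by linarith [hu t]) (h0 t).symm
    set v : ℝ → ℝ := fun t => Real.log (u t - 1 / 2) with hv
    have hvd : ∀ s t, v s - v t ≤ |s - t| := by
      intro s t
      have h := Real.log_le_log (hw0 s) (hw1 s t)
      rw [Real.log_mul (Real.exp_pos _).ne' (hw0 t).ne', Real.log_exp] at h
      linarith
    have hva : ∀ s t, |v s - v t| ≤ |s - t| := by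
      intro s t
      rw [abs_le]
      have h1 := hvd s t
      have h2 := hvd t s
      rw [abs_sub_comm] at h2
      constructor <;> linarith
    have hvc : Continuous v := by
      have : LipschitzWith 1 v := LipschitzWith.mk_one fun s t => by
        rw [Real.dist_eq, Real.dist_eq]
        exact hva s t
      exact this.continuous
    set B : ℝ → ℝ → ℝ := fun δ t => 2 * (Real.cosh δ - 1) + (2 * v t - v (t + δ) - v (t - δ)) with hB
    set E : ℝ → ℝ → ℝ := fun δ t => Real.exp δ * (η / 2) * B δ t with hE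
    have hη0 : 0 ≤ η := by
      refine le_trans ?_ (hη 0 ⟨le_refl _, hL.le⟩)
      have h1 : 1 / u 0 ≤ 2 := by
        rw [div_le_iff₀ (hu0 0)]
        linarith [hu 0]
      linarith
    -- the pointwise bound
    have key : ∀ δ, 0 < δ → ∀ t ∈ Icc 0 L, 0 ≤ B δ t ∧ j t (t + δ) + j t (t - δ) - 2 ≤ E δ t := by
      intro δ hδ t ht
      have h := hineq t δ hδ
      have a1 := hj t (t + δ)
      have a2 := hj t (t - δ)
      have c1 : u t ≤ Real.exp δ * u (t + δ) := by
        have := hu1 t (t + δ)
        rw [show t - (t + δ) = -δ by ring, abs_neg, abs_of_pos hδ] at this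
        exact this
      have c2 : u t ≤ Real.exp δ * u (t - δ) := by
        have := hu1 t (t - δ)
        rw [show t - (t - δ) = δ by ring, abs_of_pos hδ] at this
        exact this
      have hex := Real.exp_pos δ
      have d1 : u t * (j t (t + δ) + j t (t - δ) - 2) ≤
          Real.exp δ * ((j t (t + δ) - 1) * u (t + δ) + (j t (t - δ) - 1) * u (t - δ)) := by
        have f1 := mul_le_mul_of_nonneg_left c1 (by linarith : 0 ≤ j t (t + δ) - 1)
        have f2 := mul_le_mul_of_nonneg_left c2 (by linarith : 0 ≤ j t (t - δ) - 1)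
        nlinarith
      have hlog : ∀ s, (u t - 1 / 2) * (1 + v s - v t) ≤ u s - 1 / 2 := by
        intro s
        have h1 := Real.log_le_sub_one_of_pos (div_pos (hw0 s) (hw0 t))
        rw [Real.log_div (hw0 s).ne' (hw0 t).ne'] at h1
        have h2 : 1 + v s - v t ≤ (u s - 1 / 2) / (u t - 1 / 2) := by
          simp only [hv]
          linarith
        have h3 := mul_le_mul_of_nonneg_left h2 (hw0 t).le
        rwa [mul_div_cancel₀ _ (hw0 t).ne'] at h3
      have d2 : (j t (t + δ) - 1) * u (t + δ) + (j t (t - δ) - 1) * u (t - δ) ≤ (u t - 1 / 2) * B δ t := by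
        have g1 := hlog (t + δ)
        have g2 := hlog (t - δ)
        have : (u t - 1 / 2) * B δ t = 2 * Real.cosh δ * (u t - 1 / 2) - (u t - 1 / 2) * (1 + v (t + δ) - v t) -
            (u t - 1 / 2) * (1 + v (t - δ) - v t) := by
          simp only [hB]
          ring
        rw [this]
        linarith
      have hB0 : 0 ≤ B δ t := by
        have : 0 ≤ (u t - 1 / 2) * B δ t := by
          refine le_trans ?_ d2
          have c3 : 0 ≤ (j t (t + δ) - 1) * u (t + δ) := mul_nonneg (by linarith) (hu0 _).le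
          have c4 : 0 ≤ (j t (t - δ) - 1) * u (t - δ) := mul_nonneg (by linarith) (hu0 _).le
          linarith
        exact nonneg_of_mul_nonneg_right this (hw0 t)
      refine ⟨hB0, ?_⟩
      have d3 : u t * (j t (t + δ) + j t (t - δ) - 2) ≤ Real.exp δ * ((u t - 1 / 2) * B δ t) :=
        d1.trans (mul_le_mul_of_nonneg_left d2 hex.le)
      have d4 : u t - 1 / 2 ≤ u t * (η / 2) := by
        have h1 := hη t ht
        have h2 := mul_le_mul_of_nonneg_left h1 (hu0 t).le
        have h3 : u t * (2 - 1 / u t) = 2 * u t - 1 := by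
          have := (hu0 t).ne'
          field_simp
        rw [h3] at h2
        linarith
      have d5 : u t * (j t (t + δ) + j t (t - δ) - 2) ≤ u t * E δ t := by
        refine d3.trans ?_
        have : Real.exp δ * ((u t - 1 / 2) * B δ t) ≤ Real.exp δ * ((u t * (η / 2)) * B δ t) :=
          mul_le_mul_of_nonneg_left (mul_le_mul_of_nonneg_right d4 hB0) hex.le
        refine this.trans (le_of_eq ?_)
        simp only [hE]
        ring
      exact le_of_mul_le_mul_left d5 (hu0 t)
    -- continuity
    have hBc : ∀ δ, Continuous (B δ) := by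
      intro δ
      simp only [hB]
      fun_prop
    have hEc : ∀ δ, Continuous (E δ) := by
      intro δ
      simp only [hE]
      exact continuous_const.mul (hBc δ)
    set d : ℕ → ℝ := fun n => 1 / ((n : ℝ) + 1) with hd
    have hd0 : ∀ n, 0 < d n := fun n => by
      simp only [hd]
      positivity
    have hdt : Tendsto d atTop (𝓝 0) := tendsto_one_div_add_atTop_nhds_zero_nat
    have hdt' : Tendsto d atTop (𝓝[>] 0) :=
      tendsto_nhdsWithin_iff.mpr ⟨hdt, Eventually.of_forall fun n => hd0 n⟩
    set f : ℕ → ℝ → ℝ≥0∞ := fun n t => ENNReal.ofReal (E (d n) t / d n ^ 2) with hf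
    have hfm : ∀ n, Measurable (f n) := fun n => ((hEc (d n)).div_const _).measurable.ennreal_ofReal
    refine ⟨fun t => liminf (fun n => f n t) atTop, Measurable.liminf hfm, fun t ht => ?_, ?_⟩
    · have htI : t ∈ Icc 0 L := ⟨ht.1.le, ht.2.le⟩
      have h1 : liminf (fun δ : ℝ => ENNReal.ofReal ((j t (t + δ) + j t (t - δ) - 2) / δ ^ 2)) (𝓝[>] 0) ≤
          liminf (fun δ : ℝ => ENNReal.ofReal ((j t (t + δ) + j t (t - δ) - 2) / δ ^ 2)) (map d atTop) :=
        liminf_le_liminf_of_le hdt'
      refine h1.trans ?_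
      have h2 : liminf (fun δ : ℝ => ENNReal.ofReal ((j t (t + δ) + j t (t - δ) - 2) / δ ^ 2)) (map d atTop) =
          liminf (fun n => ENNReal.ofReal ((j t (t + d n) + j t (t - d n) - 2) / d n ^ 2)) atTop := rfl
      rw [h2]
      refine liminf_le_liminf (Eventually.of_forall fun n => ?_)
      refine ENNReal.ofReal_le_ofReal ?_
      exact div_le_div_of_nonneg_right (key (d n) (hd0 n) t htI).2 (by positivity)
    · refine (lintegral_liminf_le hfm).trans ?_
      -- the bound of the integrals
      have hint : ∀ n, ∫⁻ t in Ioo 0 L, f n t ≤ ENNReal.ofReal (Real.exp (d n) * (η / 2) * (L * Real.exp (d n ^ 2 / 2) + 2)) := by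
        intro n
        set δ := d n with hδd
        have hδ : 0 < δ := hd0 n
        have hc : Continuous fun t => E δ t / δ ^ 2 := (hEc δ).div_const _
        have hii : IntegrableOn (fun t => E δ t / δ ^ 2) (Ioo 0 L) :=
          (hc.continuousOn.integrableOn_Icc).mono_set Ioo_subset_Icc_self
        have h1 : ∫⁻ t in Ioo 0 L, f n t = ENNReal.ofReal (∫ t in Ioo 0 L, E δ t / δ ^ 2) := by
          rw [ofReal_integral_eq_lintegral_ofReal hii]
          refine (ae_restrict_iff' measurableSet_Ioo).mpr (ae_of_all _ fun t ht => ?_)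
          have := (key δ hδ t ⟨ht.1.le, ht.2.le⟩).1
          simp only [hE, Pi.zero_apply]
          positivity
        rw [h1]
        refine ENNReal.ofReal_le_ofReal ?_
        rw [← integral_Ioc_eq_integral_Ioo, ← intervalIntegral.integral_of_le hL.le]
        have h2 : ∫ t in (0 : ℝ)..L, E δ t / δ ^ 2 = Real.exp δ * (η / 2) / δ ^ 2 * ∫ t in (0 : ℝ)..L, B δ t := by
          rw [← intervalIntegral.integral_const_mul]
          refine intervalIntegral.integral_congr fun t _ => ?_
          simp only [hE]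
          ring
        have h3 : ∫ t in (0 : ℝ)..L, B δ t = 2 * (Real.cosh δ - 1) * L + ∫ t in (0 : ℝ)..L, (2 * v t - v (t + δ) - v (t - δ)) := by
          simp only [hB]
          rw [intervalIntegral.integral_add]
          · rw [intervalIntegral.integral_const, smul_eq_mul]
            ring
          · exact continuous_const.intervalIntegrable _ _
          · refine Continuous.intervalIntegrable ?_ _ _
            fun_prop
        have h4 := second_diff v hva hvc L δ hδ
        have h5 := cosh_bd δ
        have h6 : ∫ t in (0 : ℝ)..L, B δ t ≤ δ ^ 2 * (L * Real.exp (δ ^ 2 / 2) + 2) := by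
          rw [h3]
          nlinarith [mul_le_mul_of_nonneg_right h5 hL.le]
        rw [h2]
        calc Real.exp δ * (η / 2) / δ ^ 2 * ∫ t in (0 : ℝ)..L, B δ t
            ≤ Real.exp δ * (η / 2) / δ ^ 2 * (δ ^ 2 * (L * Real.exp (δ ^ 2 / 2) + 2)) :=
              mul_le_mul_of_nonneg_left h6 (by positivity)
          _ = Real.exp δ * (η / 2) * (L * Real.exp (δ ^ 2 / 2) + 2) := by
              field_simp
      refine (liminf_le_liminf (Eventually.of_forall hint)).trans (le_of_eq ?_)
      refine Tendsto.liminf_eq ?_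
      refine ENNReal.tendsto_ofReal ?_
      have hcont : Continuous fun x : ℝ => Real.exp x * (η / 2) * (L * Real.exp (x ^ 2 / 2) + 2) := by fun_prop
      have h := (hcont.tendsto 0).comp hdt
      have e0 : Real.exp 0 * (η / 2) * (L * Real.exp ((0 : ℝ) ^ 2 / 2) + 2) = η / 2 * (L + 2) := by simp
      rw [e0] at h
      exact h

end Pool.Agent.Helper78.PM
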